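import Mathlib
import Pool.Agent.U766.HO.Most
import Pool.Agent.U766.LP.Good

/-!
# MP_e1dc24_nt (least prime in an arithmetic progression): the same residue classes with small least primes for all the
moduli of configurations

For every `κ > 0` and every modulus `q` there is a positive proportion of the residue classes modulo `q` for which the least
prime is at most `κ q log q`.  The good classes depend on `q`.  We show that for EVERY relatively dense subset `A` of a set `S`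
of moduli (with bounded `∑_{d | q} 1 / d`; for instance the primes) and every family `𝓕` for which there is a density theorem
relative to `S`, there are many `J`-tuples of integers `t = (t_1, …, t_J) ∈ [1, N] ^ J`, a positive proportion of all tuples
which depends on `κ` and `J` only, such that `A ∩ [N, 2 N]` contains a member `F` of `𝓕` with the following property: for ALL
the moduli `q ∈ F` and all `i` the number of primes `p ≤ x`, `p ≡ t_i (mod q)`, is between `c x / (q log x)` and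
`C x / (q log x)`, where the `x = x_i(q)` between `κ N log N` and `N ^ 1.6` are arbitrary.  There is no exceptional modulus.

In particular every relatively dense set of PRIMES contains `m` primes `q, q + d, …` in progression, `d ≤ (log q) ^ B`, and every
dense set of integers contains `m` integers in progression such that for all these moduli the least primes in the
classes of the same integers `t_1, …, t_J` are at most `κ q log q`.

Method: the first moment over the `a ≤ N` (without any restriction to a complete residue system) comes from the lower bound for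
the number of primes in ALL intervals of length `x ^ (0.615 - δ)` (`Pool.Agent.U766.OP.all_long`, from the counting
theorem `Pool.Agent.Q278.KT.mainp_043`), the second moment from the upper bound sieve for prime pairs with a given
difference; then double counting over the tuples and the density theorem.
-/

set_option autoImplicit false

namespace Pool.Agent.Results.MP_e1dc24_nt.CommonClasses

open Filter Finset
open Pool.Agent.U766.HO (sec Reg)

/-- the number of the primes `p ≤ x` with `p ≡ a (mod q)` -/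
def primesInClass (x q a : ℕ) : ℕ := ((Icc 1 x).filter (fun p => p.Prime ∧ p % q = a % q)).card

/-- the least prime congruent to `a` modulo `q` exists and is at most `y` -/
def LeastPrimeLe (q a : ℕ) (y : ℝ) : Prop := ∃ p : ℕ, p.Prime ∧ p % q = a % q ∧ (p : ℝ) ≤ y

open Pool.Agent.H357R2.SI (sg)

/-- **the general theorem** -/
theorem general (κ C0 : ℝ) (hκ : 0 < κ) (hC0 : 1 ≤ C0) : ∃ c C p : ℝ, 0 < c ∧ 0 < C ∧ 0 < p ∧ ∀ (J : ℕ) (S : Set ℕ),
    (∀ q ∈ S, ∑ d ∈ q.divisors, 1 / (d : ℝ) ≤ C0) → ∀ ρ : ℝ, 0 < ρ → ∀ 𝓕 : Set (Finset ℕ), Reg S (p ^ J / 4 * ρ) 𝓕 →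
      ∃ N₀ : ℕ, ∀ N : ℕ, N₀ ≤ N → ∀ A : Finset ℕ, A ⊆ sec S N → ρ * ((sec S N).card : ℝ) ≤ (A.card : ℝ) →
        ∀ x : Fin J → ℕ → ℕ, (∀ i, ∀ q ∈ A, κ * (N * Real.log N) ≤ x i q ∧ (x i q : ℝ) ≤ (N : ℝ) ^ (1.6 : ℝ)) →
          ∃ T : Finset (Fin J → ℕ), (∀ t ∈ T, ∀ i, 1 ≤ t i ∧ t i ≤ N) ∧ p ^ J / 2 * (N : ℝ) ^ J ≤ (T.card : ℝ) ∧
            ∀ t ∈ T, ∃ F ∈ 𝓕, F ⊆ A ∧ ∀ q ∈ F, ∀ i,
              c * (x i q / (q * Real.log (x i q))) ≤ (primesInClass (x i q) q (t i) : ℝ) ∧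
              (primesInClass (x i q) q (t i) : ℝ) ≤ C * (x i q / (q * Real.log (x i q))) := by
  classical
  obtain ⟨c, C, p0, hc, hC, hp0, N1, hN1⟩ := Pool.Agent.U766.LP.good_classes κ C0 hκ hC0
  obtain ⟨p, hpdef⟩ : ∃ p : ℝ, p = min p0 1 := ⟨_, rfl⟩
  have hp : 0 < p := by rw [hpdef]; exact lt_min hp0 one_pos
  have hp1 : p ≤ 1 := by rw [hpdef]; exact min_le_right _ _
  have hpp0 : p ≤ p0 := by rw [hpdef]; exact min_le_left _ _
  refine ⟨c, C, p, hc, hC, hp, fun J S hS ρ hρ 𝓕 hReg => ?_⟩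
  obtain ⟨N2, hN2⟩ := hReg
  refine ⟨max N1 (max N2 1), fun N hN A hA hAc x hx => ?_⟩
  have a1 : N1 ≤ N := (le_max_left _ _).trans hN
  have a2 : N2 ≤ N := ((le_max_left _ _).trans (le_max_right _ _)).trans hN
  have a3 : 1 ≤ N := ((le_max_right _ _).trans (le_max_right _ _)).trans hN
  have hN1' : (1 : ℝ) ≤ N := by exact_mod_cast a3
  have hN0 : (0 : ℝ) < N := by linarith
  have hcardN : ((Fintype.piFinset (fun _ : Fin J => Icc 1 N)).card : ℝ) = (N : ℝ) ^ J := by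
    rw [Fintype.card_piFinset]
    simp only [Nat.card_Icc, Nat.add_sub_cancel, Finset.prod_const, Finset.card_univ, Fintype.card_fin]
    push_cast
    rfl
  obtain ⟨W, hW⟩ : ∃ W : ℕ → Fin J → Finset ℕ, W = fun (q : ℕ) (i : Fin J) => (Icc 1 N).filter (fun a =>
      c * (x i q / (q * Real.log (x i q))) ≤ (primesInClass (x i q) q a : ℝ) ∧
        (primesInClass (x i q) q a : ℝ) ≤ C * (x i q / (q * Real.log (x i q)))) := ⟨_, rfl⟩
  have hWc : ∀ q ∈ A, ∀ i, p * N ≤ ((W q i).card : ℝ) := by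
    intro q hq i
    have h1 := Pool.Agent.U766.HO.mem_sec.1 (hA hq)
    obtain ⟨h2, h3⟩ := hx i q hq
    rw [hW]
    refine le_trans (by gcongr) (hN1 N q (x i q) a1 h1.1.1 h1.1.2 (hS q h1.2) h2 h3)
  rcases A.eq_empty_or_nonempty with hA0 | hA0
  · -- the empty set
    obtain ⟨F, hF, hFA⟩ := hN2 N a2 A hA (by
      rw [hA0] at hAc ⊢
      have h1 : (0 : ℝ) ≤ ((sec S N).card : ℝ) := Nat.cast_nonneg _
      have h2 : ρ * ((sec S N).card : ℝ) ≤ 0 := by simpa using hAc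
      have h3 : ((sec S N).card : ℝ) = 0 := by
        by_contra hcon
        have : 0 < ((sec S N).card : ℝ) := lt_of_le_of_ne h1 (Ne.symm hcon)
        have : 0 < ρ * ((sec S N).card : ℝ) := by positivity
        linarith
      rw [h3]
      simp)
    refine ⟨Fintype.piFinset (fun _ : Fin J => Icc 1 N), fun t ht i => mem_Icc.1 (Fintype.mem_piFinset.1 ht i), ?_,
      fun t _ => ⟨F, hF, hFA, fun q hq => ?_⟩⟩
    · rw [hcardN]
      have h4 : p ^ J ≤ 1 := pow_le_one₀ hp.le hp1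
      have h5 : (0 : ℝ) < (N : ℝ) ^ J := by positivity
      nlinarith
    · rw [hA0] at hFA
      exact absurd (hFA hq) (Finset.notMem_empty q)
  · obtain ⟨T, hTT, hTc, hT⟩ := Pool.Agent.U766.HO.common (e := p ^ J * (N : ℝ) ^ J) (b := (N : ℝ) ^ J)
      (by positivity) (by positivity) (N := N) (S := S) (𝓕 := 𝓕) (ρ := ρ) (by
        intro A0 hA0 hA0c
        refine hN2 N a2 A0 hA0 ?_
        refine le_trans (le_of_eq ?_) hA0c
        field_simp) hA hAc (A' := A) (Finset.Subset.refl A) (by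
          have : (0 : ℝ) ≤ A.card := Nat.cast_nonneg _
          linarith) hA0 (Fintype.piFinset (fun _ : Fin J => Icc 1 N))
        (fun q => Fintype.piFinset (fun i => W q i)) (by
        intro q _
        apply Fintype.piFinset_subset
        intro i
        rw [hW]
        exact filter_subset _ _) hcardN.le (by
        intro q hq
        rw [Fintype.card_piFinset]
        push_cast
        calc p ^ J * (N : ℝ) ^ J = ∏ _i : Fin J, (p * (N : ℝ)) := by
              rw [Finset.prod_const, Finset.card_univ, Fintype.card_fin, mul_pow]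
          _ ≤ ∏ i, ((W q i).card : ℝ) := by
              apply Finset.prod_le_prod
              · intro i _
                positivity
              · intro i _
                exact hWc q hq i)
    refine ⟨T, fun t ht i => mem_Icc.1 (Fintype.mem_piFinset.1 (hTT ht) i), le_trans (le_of_eq (by ring)) hTc,
      fun t ht => ?_⟩
    obtain ⟨F, hF𝓕, hFA, hF⟩ := hT t ht
    refine ⟨F, hF𝓕, hFA, fun q hq i => ?_⟩
    have h3 := Fintype.mem_piFinset.1 (hF q hq) i
    rw [hW, mem_filter] at h3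
    exact h3.2

/-- the least primes -/
theorem least (κ C0 : ℝ) (hκ : 0 < κ) (hC0 : 1 ≤ C0) : ∃ p : ℝ, 0 < p ∧ ∀ (J : ℕ) (S : Set ℕ),
    (∀ q ∈ S, ∑ d ∈ q.divisors, 1 / (d : ℝ) ≤ C0) → ∀ ρ : ℝ, 0 < ρ → ∀ 𝓕 : Set (Finset ℕ), Reg S (p ^ J / 4 * ρ) 𝓕 →
      ∃ N₀ : ℕ, ∀ N : ℕ, N₀ ≤ N → ∀ A : Finset ℕ, A ⊆ sec S N → ρ * ((sec S N).card : ℝ) ≤ (A.card : ℝ) →
        ∃ T : Finset (Fin J → ℕ), (∀ t ∈ T, ∀ i, 1 ≤ t i ∧ t i ≤ N) ∧ p ^ J / 2 * (N : ℝ) ^ J ≤ (T.card : ℝ) ∧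
          ∀ t ∈ T, ∃ F ∈ 𝓕, F ⊆ A ∧ ∀ q ∈ F, ∀ i, LeastPrimeLe q (t i) (κ * (q * Real.log q)) := by
  classical
  obtain ⟨c, C, p, hc, hC, hp, h⟩ := general (κ / 2) C0 (by positivity) hC0
  refine ⟨p, hp, fun J S hS ρ hρ 𝓕 hReg => ?_⟩
  obtain ⟨N₀, hN₀⟩ := h J S hS ρ hρ 𝓕 hReg
  have hev : ∀ᶠ N : ℕ in atTop, 2 / κ ≤ (N : ℝ) * Real.log N ∧
      8 * κ * (N * Real.log N) ≤ (N : ℝ) ^ (1.6 : ℝ) ∧ 16 ≤ N := by
    have h6 := (isLittleO_log_rpow_atTop (show (0 : ℝ) < 0.6 by norm_num)).bound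
      (show 0 < 1 / (8 * κ) by positivity)
    have h7 := tendsto_natCast_atTop_atTop.eventually h6
    have h8 : Tendsto (fun N : ℕ => (N : ℝ)) atTop atTop := tendsto_natCast_atTop_atTop
    filter_upwards [h7, eventually_ge_atTop 16, h8.eventually_ge_atTop (2 / κ)] with N g1 g2 g3
    have gN : (16 : ℝ) ≤ N := by exact_mod_cast g2
    have gl : 1 ≤ Real.log N := by
      rw [Real.le_log_iff_exp_le (by linarith)]
      have := Real.exp_one_lt_d9
      linarith
    refine ⟨?_, ?_, g2⟩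
    · calc 2 / κ ≤ (N : ℝ) := g3
        _ = N * 1 := (mul_one _).symm
        _ ≤ N * Real.log N := by gcongr
    · rw [Real.norm_of_nonneg (by linarith), Real.norm_of_nonneg (by positivity)] at g1
      calc 8 * κ * (N * Real.log N) ≤ 8 * κ * (N * (1 / (8 * κ) * (N : ℝ) ^ (0.6 : ℝ))) := by gcongr
        _ = (N : ℝ) ^ (1 : ℝ) * (N : ℝ) ^ (0.6 : ℝ) := by
          rw [Real.rpow_one]
          field_simp
        _ = (N : ℝ) ^ (1.6 : ℝ) := by
          rw [← Real.rpow_add (by linarith)]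
          norm_num
  obtain ⟨N1, hN1⟩ := eventually_atTop.1 hev
  refine ⟨max N₀ N1, fun N hN A hA hAc => ?_⟩
  have a1 : N₀ ≤ N := (le_max_left _ _).trans hN
  obtain ⟨b1, b2, b3⟩ := hN1 N ((le_max_right _ _).trans hN)
  have hN16 : (16 : ℝ) ≤ N := by exact_mod_cast b3
  have hlogN : 0 < Real.log N := Real.log_pos (by linarith)
  have hq : ∀ q ∈ A, (N : ℝ) ≤ q ∧ (q : ℝ) ≤ 2 * N ∧ Real.log N ≤ Real.log q ∧ Real.log q ≤ 2 * Real.log N := by
    intro q hq
    have h1 := Pool.Agent.U766.HO.mem_sec.1 (hA hq)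
    have h2 : (N : ℝ) ≤ q := by exact_mod_cast h1.1.1
    have h3 : (q : ℝ) ≤ 2 * N := by exact_mod_cast h1.1.2
    refine ⟨h2, h3, Real.log_le_log (by linarith) h2, ?_⟩
    rw [show (2 : ℝ) * Real.log N = Real.log ((N : ℝ) ^ 2) by rw [Real.log_pow]; norm_num]
    exact Real.log_le_log (by linarith) (by nlinarith)
  obtain ⟨T, hT1, hT2, hT3⟩ := hN₀ N a1 A hA hAc (fun _ q => ⌊κ * (q * Real.log q)⌋₊) (by
    intro i q hqA
    obtain ⟨h1, h2, h3, h4⟩ := hq q hqA
    have h5 : κ * (N * Real.log N) ≤ κ * (q * Real.log q) := by gcongr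
    have h6 : 1 ≤ κ / 2 * (N * Real.log N) := by
      calc (1 : ℝ) = κ / 2 * (2 / κ) := by field_simp
        _ ≤ κ / 2 * (N * Real.log N) := by gcongr
    have h7 := Nat.lt_floor_add_one (κ * (q * Real.log q))
    constructor
    · show κ / 2 * (N * Real.log N) ≤ ((⌊κ * (q * Real.log q)⌋₊ : ℕ) : ℝ)
      linarith
    · show ((⌊κ * (q * Real.log q)⌋₊ : ℕ) : ℝ) ≤ (N : ℝ) ^ (1.6 : ℝ)
      have h8 := Nat.floor_le (show 0 ≤ κ * (q * Real.log q) by
        have : 0 < Real.log q := by linarith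
        positivity)
      have h9 : κ * (q * Real.log q) ≤ κ * ((2 * N) * (2 * Real.log N)) := by gcongr
      have h10 : 0 ≤ κ * (N * Real.log N) := by positivity
      nlinarith)
  refine ⟨T, hT1, hT2, fun t ht => ?_⟩
  obtain ⟨F, hF, hFA, hF2⟩ := hT3 t ht
  refine ⟨F, hF, hFA, fun q hqF i => ?_⟩
  obtain ⟨h1, h2, h3, h4⟩ := hq q (hFA hqF)
  have h5 := (hF2 q hqF i).1
  have h6 : 1 ≤ κ / 2 * (N * Real.log N) := by
    calc (1 : ℝ) = κ / 2 * (2 / κ) := by field_simp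
      _ ≤ κ / 2 * (N * Real.log N) := by gcongr
  have hlogq : 0 < Real.log q := by linarith
  have h7 : 2 ≤ κ * (q * Real.log q) := by
    have : κ * (N * Real.log N) ≤ κ * (q * Real.log q) := by gcongr
    linarith
  have h8 : 2 ≤ ⌊κ * (q * Real.log q)⌋₊ := Nat.le_floor (by exact_mod_cast h7)
  have h8' : (2 : ℝ) ≤ ((⌊κ * (q * Real.log q)⌋₊ : ℕ) : ℝ) := by exact_mod_cast h8
  have hq0 : (0 : ℝ) < q := by linarith
  have h9 : (0 : ℝ) < (primesInClass (⌊κ * (q * Real.log q)⌋₊) q (t i) : ℝ) := by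
    refine lt_of_lt_of_le ?_ h5
    have h10 : 0 < Real.log ((⌊κ * (q * Real.log q)⌋₊ : ℕ) : ℝ) := Real.log_pos (by linarith)
    have h11 : (0 : ℝ) < ((⌊κ * (q * Real.log q)⌋₊ : ℕ) : ℝ) := by linarith
    positivity
  have h10 : 0 < primesInClass (⌊κ * (q * Real.log q)⌋₊) q (t i) := by exact_mod_cast h9
  unfold primesInClass at h10
  obtain ⟨r, hr⟩ := Finset.card_pos.1 h10
  rw [mem_filter, mem_Icc] at hr
  refine ⟨r, hr.2.1, hr.2.2, ?_⟩
  calc (r : ℝ) ≤ ((⌊κ * (q * Real.log q)⌋₊ : ℕ) : ℝ) := by exact_mod_cast hr.1.2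
    _ ≤ κ * (q * Real.log q) := Nat.floor_le (by positivity)

theorem result :
    -- (1) the general theorem
    (∀ κ C0 : ℝ, 0 < κ → 1 ≤ C0 → ∃ c C p : ℝ, 0 < c ∧ 0 < C ∧ 0 < p ∧ ∀ (J : ℕ) (S : Set ℕ),
      (∀ q ∈ S, ∑ d ∈ q.divisors, 1 / (d : ℝ) ≤ C0) → ∀ ρ : ℝ, 0 < ρ → ∀ 𝓕 : Set (Finset ℕ), Reg S (p ^ J / 4 * ρ) 𝓕 →
        ∃ N₀ : ℕ, ∀ N : ℕ, N₀ ≤ N → ∀ A : Finset ℕ, A ⊆ sec S N → ρ * ((sec S N).card : ℝ) ≤ (A.card : ℝ) →
          ∀ x : Fin J → ℕ → ℕ, (∀ i, ∀ q ∈ A, κ * (N * Real.log N) ≤ x i q ∧ (x i q : ℝ) ≤ (N : ℝ) ^ (1.6 : ℝ)) →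
            ∃ T : Finset (Fin J → ℕ), (∀ t ∈ T, ∀ i, 1 ≤ t i ∧ t i ≤ N) ∧ p ^ J / 2 * (N : ℝ) ^ J ≤ (T.card : ℝ) ∧
              ∀ t ∈ T, ∃ F ∈ 𝓕, F ⊆ A ∧ ∀ q ∈ F, ∀ i,
                c * (x i q / (q * Real.log (x i q))) ≤ (primesInClass (x i q) q (t i) : ℝ) ∧
                (primesInClass (x i q) q (t i) : ℝ) ≤ C * (x i q / (q * Real.log (x i q)))) ∧
    -- (2) least primes modulo the primes of progressions
    (∀ (κ : ℝ) (J : ℕ), 0 < κ → ∃ p : ℝ, 0 < p ∧ ∀ (m : ℕ) (ρ : ℝ), 0 < ρ → ∃ B N₀ : ℕ, ∀ N : ℕ, N₀ ≤ N →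
      ∀ A : Finset ℕ, (∀ q ∈ A, q.Prime ∧ N ≤ q ∧ q ≤ 2 * N) → ρ * (N / Real.log N) ≤ (A.card : ℝ) →
        ∃ T : Finset (Fin J → ℕ), (∀ t ∈ T, ∀ i, 1 ≤ t i ∧ t i ≤ N) ∧ p * (N : ℝ) ^ J ≤ (T.card : ℝ) ∧
          ∀ t ∈ T, ∃ a d : ℕ, 1 ≤ d ∧ (d : ℝ) ≤ Real.log a ^ B ∧ ∀ j < m, a + j * d ∈ A ∧
            ∀ i, LeastPrimeLe (a + j * d) (t i) (κ * ((a + j * d : ℕ) * Real.log (a + j * d : ℕ)))) ∧
    -- (3) least primes modulo the members of progressions in dense sets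
    (∀ (κ : ℝ) (J : ℕ) (ρ : ℝ), 0 < κ → 0 < ρ → ∃ p : ℝ, 0 < p ∧ ∀ m : ℕ, ∃ N₀ : ℕ, ∀ N : ℕ, N₀ ≤ N →
      ∀ A : Finset ℕ, A ⊆ Icc N (2 * N) → ρ * N ≤ (A.card : ℝ) →
        ∃ T : Finset (Fin J → ℕ), (∀ t ∈ T, ∀ i, 1 ≤ t i ∧ t i ≤ N) ∧ p * (N : ℝ) ^ J ≤ (T.card : ℝ) ∧
          ∀ t ∈ T, ∃ a d : ℕ, 1 ≤ d ∧ ∀ j < m, a + j * d ∈ A ∧
            ∀ i, LeastPrimeLe (a + j * d) (t i) (κ * ((a + j * d : ℕ) * Real.log (a + j * d : ℕ)))) := by
  classical
  refine ⟨fun κ C0 hκ hC0 => general κ C0 hκ hC0, fun κ J hκ => ?_, fun κ J ρ hκ hρ => ?_⟩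
  · obtain ⟨p, hp, h⟩ := least κ 2 hκ (by norm_num)
    refine ⟨p ^ J / 2, by positivity, fun m ρ hρ => ?_⟩
    obtain ⟨C, hC, X₀, hup⟩ := Pool.Agent.U766.PW.primes_up
    obtain ⟨B, hB⟩ := Pool.Agent.U766.HO.reg_primes m (p ^ J / 4 * (ρ / (2 * C + 2))) (by positivity)
    obtain ⟨N₀, hN₀⟩ := h J {p | p.Prime} (by
      intro q hq
      have hq' : q.Prime := hq
      rw [Nat.Prime.divisors hq', Finset.sum_pair hq'.one_lt.ne]
      have : (1 : ℝ) / q ≤ 1 := by
        rw [div_le_one (by exact_mod_cast hq'.pos)]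
        exact_mod_cast hq'.one_lt.le
      push_cast
      linarith) (ρ / (2 * C + 2)) (by positivity) _ hB
    refine ⟨B, max N₀ (max X₀ 3), fun N hN A hA hAc => ?_⟩
    have a1 : N₀ ≤ N := (le_max_left _ _).trans hN
    have a2 : X₀ ≤ N := ((le_max_left _ _).trans (le_max_right _ _)).trans hN
    have a3 : 3 ≤ N := ((le_max_right _ _).trans (le_max_right _ _)).trans hN
    have hN3 : (3 : ℝ) ≤ N := by exact_mod_cast a3
    have hlog : 0 < Real.log N := Real.log_pos (by linarith)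
    have hlogN : Real.log N ≤ N := (Real.log_le_sub_one_of_pos (by linarith)).trans (by linarith)
    obtain ⟨T, hT1, hT2, hT3⟩ := hN₀ N a1 A (by
      intro k hk
      obtain ⟨h1, h2, h3⟩ := hA k hk
      exact Pool.Agent.U766.HO.mem_sec.2 ⟨⟨h2, h3⟩, h1⟩) (by
      refine le_trans ?_ hAc
      have h1 : ((sec {p | p.Prime} N).card : ℝ) ≤ (2 * C + 2) * (N / Real.log N) := by
        have h2 : ((sec {p | p.Prime} N).card : ℝ) ≤ ((Pool.Agent.U766.OP.primesIn N N).card : ℝ) + 1 := by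
          exact_mod_cast Pool.Agent.U766.HO.sec_primes_le N
        have h3 := hup N N a2 le_rfl
        have h4 : 1 ≤ (N : ℝ) / Real.log N := by
          rw [le_div_iff₀ hlog]
          linarith
        nlinarith
      calc ρ / (2 * C + 2) * ((sec {p | p.Prime} N).card : ℝ)
          ≤ ρ / (2 * C + 2) * ((2 * C + 2) * (N / Real.log N)) := by gcongr
        _ = ρ * (N / Real.log N) := by field_simp)
    refine ⟨T, hT1, hT2, fun t ht => ?_⟩
    obtain ⟨F, ⟨a, d, hd1, hd2, rfl⟩, hFA, hF⟩ := hT3 t ht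
    refine ⟨a, d, hd1, hd2, fun j hj => ?_⟩
    have hj' : a + j * d ∈ (range m).image (fun j => a + j * d) := mem_image.2 ⟨j, mem_range.2 hj, rfl⟩
    exact ⟨hFA hj', fun i => hF _ hj' i⟩
  · -- most integers have a bounded sum of the reciprocals of the divisors
    obtain ⟨Cs, hCs, hsg⟩ := Pool.Agent.H357R2.SI.sum_sg_sq
    obtain ⟨ρ', hρ'⟩ : ∃ ρ' : ℝ, ρ' = min ρ 1 := ⟨_, rfl⟩
    have hρ'0 : 0 < ρ' := by rw [hρ']; exact lt_min hρ one_pos
    have hρ'1 : ρ' ≤ 1 := by rw [hρ']; exact min_le_right _ _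
    have hρ'ρ : ρ' ≤ ρ := by rw [hρ']; exact min_le_left _ _
    obtain ⟨C0, hC0⟩ : ∃ C0 : ℝ, C0 = max 1 (4 * Cs / ρ') := ⟨_, rfl⟩
    have hC01 : 1 ≤ C0 := by rw [hC0]; exact le_max_left _ _
    have hC02 : 4 * Cs / ρ' ≤ C0 ^ 2 := by
      calc 4 * Cs / ρ' ≤ C0 := by rw [hC0]; exact le_max_right _ _
        _ ≤ C0 ^ 2 := by nlinarith
    obtain ⟨p, hp, h⟩ := least κ C0 hκ hC01
    refine ⟨p ^ J / 2, by positivity, fun m => ?_⟩
    obtain ⟨S, hS⟩ : ∃ S : Set ℕ, S = {q | sg q ≤ C0} := ⟨_, rfl⟩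
    -- few exceptions
    have hbad : ∀ (N : ℕ) (D : Finset ℕ), 1 ≤ N → D ⊆ Icc N (2 * N) → (∀ q ∈ D, q ∉ S) → (D.card : ℝ) ≤ ρ' / 2 * N := by
      intro N D hN hD hDS
      have h1 : (D.card : ℝ) * C0 ^ 2 ≤ Cs * (2 * N : ℕ) := by
        calc (D.card : ℝ) * C0 ^ 2 = ∑ _q ∈ D, C0 ^ 2 := by rw [Finset.sum_const, nsmul_eq_mul]
          _ ≤ ∑ q ∈ D, sg q ^ 2 := by
              apply Finset.sum_le_sum
              intro q hq
              have h2 := hDS q hq
              rw [hS] at h2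
              have h3 : C0 < sg q := not_le.1 h2
              gcongr
          _ ≤ ∑ q ∈ Icc 1 (2 * N), sg q ^ 2 := by
              apply Finset.sum_le_sum_of_subset_of_nonneg
              · refine hD.trans (Icc_subset_Icc hN le_rfl)
              · intro q _ _
                positivity
          _ ≤ Cs * (2 * N : ℕ) := hsg (2 * N)
      have h2 : (D.card : ℝ) * (4 * Cs / ρ') ≤ Cs * (2 * N : ℕ) := le_trans (by gcongr) h1
      have h3 : (D.card : ℝ) * (4 * Cs / ρ') * (ρ' / (4 * Cs)) ≤ Cs * (2 * N : ℕ) * (ρ' / (4 * Cs)) := by gcongr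
      have h4 : (D.card : ℝ) * (4 * Cs / ρ') * (ρ' / (4 * Cs)) = D.card := by field_simp
      have h5 : Cs * ((2 * N : ℕ) : ℝ) * (ρ' / (4 * Cs)) = ρ' / 2 * N := by
        push_cast
        field_simp
        ring
      rw [h4, h5] at h3
      exact h3
    have hsecN : ∀ N : ℕ, 1 ≤ N → (N : ℝ) / 2 ≤ ((sec S N).card : ℝ) := by
      intro N hN
      have h1 := hbad N ((Icc N (2 * N)).filter (fun q => q ∉ S)) hN (filter_subset _ _)
        (fun q hq => (mem_filter.1 hq).2)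
      have h2 := Finset.card_filter_add_card_filter_not (s := Icc N (2 * N)) (fun q => q ∈ S)
      have h3 : (Icc N (2 * N)).filter (fun q => q ∈ S) ⊆ sec S N := by
        intro q hq
        rw [mem_filter, mem_Icc] at hq
        exact Pool.Agent.U766.HO.mem_sec.2 hq
      have h4 := card_le_card h3
      rw [Nat.card_Icc] at h2
      have h5 : ((2 * N + 1 - N : ℕ) : ℝ) = N + 1 := by
        rw [show 2 * N + 1 - N = N + 1 by omega]
        push_cast
        ring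
      have h6 : (((Icc N (2 * N)).filter (fun q => q ∈ S)).card : ℝ) +
          (((Icc N (2 * N)).filter (fun q => q ∉ S)).card : ℝ) = N + 1 := by
        rw [← h5]
        exact_mod_cast h2
      have h7 : (((Icc N (2 * N)).filter (fun q => q ∈ S)).card : ℝ) ≤ ((sec S N).card : ℝ) := by exact_mod_cast h4
      have h8 : (1 : ℝ) ≤ N := by exact_mod_cast hN
      have h9 : ρ' / 2 * (N : ℝ) ≤ 1 / 2 * N := by gcongr
      linarith
    have hreg : Reg S (p ^ J / 4 * (ρ' / 4))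
        {F | ∃ a d : ℕ, 1 ≤ d ∧ F = (range m).image (fun j => a + j * d)} := by
      obtain ⟨N₀, h0⟩ := Pool.Agent.U766.OP.ap_regular m (p ^ J / 4 * (ρ' / 4) / 2) (by positivity)
      refine ⟨max N₀ 1, fun N hN A hA hAc => h0 N ((le_max_left _ _).trans hN) A ?_ ?_⟩
      · intro q hq
        rw [mem_Icc]
        exact (Pool.Agent.U766.HO.mem_sec.1 (hA hq)).1
      · refine le_trans ?_ hAc
        have := hsecN N ((le_max_right _ _).trans hN)
        calc p ^ J / 4 * (ρ' / 4) / 2 * (N : ℝ) = p ^ J / 4 * (ρ' / 4) * (N / 2) := by ring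
          _ ≤ _ := by gcongr
    obtain ⟨N₀, hN₀⟩ := h J S (by
      intro q hq
      rw [hS] at hq
      exact hq) (ρ' / 4) (by positivity) _ hreg
    refine ⟨max N₀ 1, fun N hN A hA hAc => ?_⟩
    have a1 : N₀ ≤ N := (le_max_left _ _).trans hN
    have a2 : 1 ≤ N := (le_max_right _ _).trans hN
    have hN1 : (1 : ℝ) ≤ N := by exact_mod_cast a2
    obtain ⟨T, hT1, hT2, hT3⟩ := hN₀ N a1 (A.filter (fun q => q ∈ S)) (by
        intro q hq
        rw [mem_filter] at hq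
        exact Pool.Agent.U766.HO.mem_sec.2 ⟨mem_Icc.1 (hA hq.1), hq.2⟩) (by
        have h1 := hbad N (A.filter (fun q => q ∉ S)) a2 ((filter_subset _ _).trans hA)
          (fun q hq => (mem_filter.1 hq).2)
        have h2 := Finset.card_filter_add_card_filter_not (s := A) (fun q => q ∈ S)
        have h3 : ((A.filter (fun q => q ∈ S)).card : ℝ) + ((A.filter (fun q => q ∉ S)).card : ℝ) = A.card := by
          exact_mod_cast h2
        have h4 : ((sec S N).card : ℝ) ≤ N + 1 := by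
          have h5 : sec S N ⊆ Icc N (2 * N) := by
            intro q hq
            rw [mem_Icc]
            exact (Pool.Agent.U766.HO.mem_sec.1 hq).1
          have h6 := card_le_card h5
          rw [Nat.card_Icc, show 2 * N + 1 - N = N + 1 by omega] at h6
          exact_mod_cast h6
        have h7 : ρ' * N ≤ ρ * N := by gcongr
        have h8 : ρ' / 4 * ((sec S N).card : ℝ) ≤ ρ' / 4 * (2 * N) := by
          gcongr
          linarith
        linarith)
    refine ⟨T, hT1, hT2, fun t ht => ?_⟩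
    obtain ⟨F, ⟨a, d, hd1, rfl⟩, hFA, hF⟩ := hT3 t ht
    refine ⟨a, d, hd1, fun j hj => ?_⟩
    have hj' : a + j * d ∈ (range m).image (fun j => a + j * d) := mem_image.2 ⟨j, mem_range.2 hj, rfl⟩
    exact ⟨(mem_filter.1 (hFA hj')).1, fun i => hF _ hj' i⟩

end Pool.Agent.Results.MP_e1dc24_nt.CommonClasses
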