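import Pool.Agent.U642.CB.AP

set_option autoImplicit false

/-!
# Convex bodies contain vectors of residue classes with least primes of record size

For a prime `q` and an integer `c` prime to `q` let `p(c, q)` be the least prime in the class
`c mod q`, and let `f(q) = log q (log₂ q)² log₄ q / (log₃ q)²` (iterated natural logarithms); the
largest known lower bound for the largest `p(c, q)` is `κ q f(q)` (starting files), so `A ≥ 1` is
needed in the conjectured bound `p(c, q) ≪ q (log q) ^ A`, with more than a constant to spare.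

Let `q` be a large prime and let `c + K` be a body in the cube `(q ^ δ, q / n] ^ n`, `K` convex,
`K = -K`, `c` in `ℝ ^ n` arbitrary.  If the last of the successive minima of `K` is at most
`q ^ (-δ)`, that is, if there are `n` linearly independent integer vectors `v_i` with
`q ^ δ v_i ∈ K`, then at least the proportion `q ^ (-δ)` of the integer points `x` of the body (and
at least one) has the property that all the `2 ^ n - 1` sums `∑_{j ∈ S} x_j`, `S ≠ ∅`, are in
residue classes with least prime larger than `κ q f(q)`.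

So vectors of classes with such large least primes exist in all the bodies which are not thinner
than `q ^ δ` in a suitable sense, for example among the integer points very near to a line or a
subspace.  Starting results have boxes.

Method.  Let `u` be an inverse of `q` modulo `K!`, `K = q ^ δ'`.  By the equidistribution of the
integer points of a suitable dilate `c + t K`, `3 / 4 ≤ t ≤ 1`, in residue classes (rounding to
the lattice spanned by `m v_i`, doubling, pigeonhole) the vectors `u x` are well distributed, and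
the covering sieve for families of integer vectors (helper837, helper542; after helper256 and
helper378) finds many of them for which all the integers `u ∑_{j ∈ S} x_j + i`, `|i| ≤ κ f(q)`,
have a prime factor `l ≤ K`.  Then `l` divides `∑_{j ∈ S} x_j + i q`.
-/

namespace Pool.Agent.Results.MP_e1dc24_nt.ConvexBodiesOfClasses

open Filter
open scoped Pointwise

/-- The record scale `f(x) = log x (log₂ x)² log₄ x / (log₃ x)²` (iterated natural logarithms). -/
noncomputable def f (x : ℝ) : ℝ :=
  Real.log x * (Real.log (Real.log x)) ^ 2 * Real.log (Real.log (Real.log (Real.log x))) /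
    (Real.log (Real.log (Real.log x))) ^ 2

/-- The real vector of an integer vector. -/
def real {n : ℕ} (x : Fin n → ℤ) : Fin n → ℝ := fun j => (x j : ℝ)

/-- The integer points `x` of `c + K` such that for every nonempty set `S` of indices all the
primes `l ≡ ∑ j ∈ S, x j` modulo `q` are larger than `κ q f(q)`. -/
def Points {n : ℕ} (κ : ℝ) (q : ℕ) (K : Set (Fin n → ℝ)) (c : Fin n → ℝ) : Set (Fin n → ℤ) :=
  {x | real x - c ∈ K ∧ ∀ S : Finset (Fin n), S.Nonempty → ∀ l : ℕ, l.Prime →
    (l : ℤ) ≡ ∑ j ∈ S, x j [ZMOD q] → κ * (q * f q) < l}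

/-- **Convex bodies contain vectors of residue classes modulo `q` with least primes of record
size**, together with all their subset sums. -/
theorem result (n : ℕ) (hn : 1 ≤ n) (δ : ℝ) (hδ : 0 < δ) (hδ1 : δ ≤ 1) :
    ∃ κ : ℝ, 0 < κ ∧ ∃ q₀ : ℕ, ∀ q : ℕ, q.Prime → q₀ ≤ q →
      ∀ (K : Set (Fin n → ℝ)) (c : Fin n → ℝ) (v : Fin n → Fin n → ℤ),
      Convex ℝ K → (∀ x ∈ K, -x ∈ K) →
      (∀ x ∈ K, ∀ j, (q : ℝ) ^ δ < c j + x j ∧ n * (c j + x j) ≤ q) →
      LinearIndependent ℝ (fun i => real (v i)) → (∀ i, (q : ℝ) ^ δ • real (v i) ∈ K) →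
      (Points κ q K c).Nonempty ∧
      (q : ℝ) ^ (-δ) * (({x : Fin n → ℤ | real x - c ∈ K}).ncard : ℝ) ≤
        ((Points κ q K c).ncard : ℝ) := by
  classical
  obtain ⟨h1, h2⟩ := Pool.Agent.U642.LP.subF_balanced n
  obtain ⟨κ, hκ, h⟩ := Pool.Agent.U642.CB.convex_ap n hn _
    (Pool.Agent.N542.PT.crit_balanced _ _ h2 h1) (by
      intro S u x
      rw [Pool.Agent.U642.LP.subF_eval, Pool.Agent.U642.LP.subF_eval, Finset.mul_sum]) δ hδ hδ1
  obtain ⟨X₀, hX₀⟩ := eventually_atTop.mp (h.and ((Pool.Agent.W147.PS.ev_pow (-δ) 0 n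
    (by linarith)).and (eventually_gt_atTop (1 : ℝ))))
  obtain ⟨q₀, hq₀⟩ := exists_nat_ge X₀
  refine ⟨κ, hκ, q₀, ?_⟩
  intro q hq hqq K c v hK hs hbox hli hv
  obtain ⟨h3, h4, hX1⟩ := hX₀ q (hq₀.trans (by exact_mod_cast hqq))
  have hb : Bornology.IsBounded K := by
    obtain ⟨R, hR⟩ : ∃ R : ℝ, R = ∑ j, (|c j| + q) := ⟨_, rfl⟩
    have hR0 : 0 ≤ R := by rw [hR]; positivity
    apply (Metric.isBounded_closedBall (x := (0 : Fin n → ℝ)) (r := R)).subset
    intro z hz
    rw [mem_closedBall_zero_iff, pi_norm_le_iff_of_nonneg hR0]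
    intro j
    rw [Real.norm_eq_abs]
    have h5 : |c j| + q ≤ R := by
      rw [hR]
      exact Finset.single_le_sum (f := fun j => |c j| + (q : ℝ)) (fun _ _ => by positivity)
        (Finset.mem_univ j)
    refine le_trans ?_ h5
    obtain ⟨h6, h7⟩ := hbox z hz j
    have h8 : 0 ≤ (q : ℝ) ^ δ := by positivity
    have h9 : (1 : ℝ) ≤ n := by exact_mod_cast hn
    have h10 : c j + z j ≤ q := by nlinarith
    have h11 := neg_abs_le (c j)
    have h12 := le_abs_self (c j)
    rw [abs_le]
    constructor <;> linarith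
  obtain ⟨S, hS⟩ := Pool.Agent.U642.CB.exists_S K c hb
  have h5 := h3 q hq rfl K c hK hs v hv hli S hS
  have hX0 : (0 : ℝ) < q := by linarith
  have hset : {x : Fin n → ℤ | real x - c ∈ K} = (S 1 : Set (Fin n → ℤ)) := by
    ext x
    rw [Finset.mem_coe, hS 1 zero_le_one (by norm_num), one_smul]
    rfl
  have hfin : (Points κ q K c).Finite := by
    apply Set.Finite.subset (S 1).finite_toSet
    rw [← hset]
    exact fun x hx => hx.1
  have hcount : (q : ℝ) ^ (-δ) * (({x : Fin n → ℤ | real x - c ∈ K}).ncard : ℝ) ≤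
      ((Points κ q K c).ncard : ℝ) := by
    rw [hset, Set.ncard_coe_finset]
    refine h5.trans ?_
    rw [Nat.cast_le, ← Set.ncard_coe_finset]
    apply Set.ncard_le_ncard _ hfin
    intro x hx
    rw [Finset.mem_coe, Finset.mem_filter] at hx
    obtain ⟨h6, h7⟩ := hx
    have hxK : real x - c ∈ K := by
      have : x ∈ (S 1 : Set (Fin n → ℤ)) := h6
      rw [← hset] at this
      exact this
    refine ⟨hxK, ?_⟩
    intro T hT l hl hmod
    have h8 := Pool.Agent.U642.LP.large_of q hq.pos _ ((q : ℝ) ^ δ) x (by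
      intro j
      obtain ⟨h9, h10⟩ := hbox _ hxK j
      have e : c j + (real x - c) j = x j := by
        simp [real]
      rw [e] at h9 h10
      exact ⟨h9, by exact_mod_cast h10⟩) (by positivity) h7 T hT l hl hmod.symm.dvd
    have e : κ * (q * f q) = κ * Pool.Agent.W147.PS.ff q * q := by
      have : f (q : ℝ) = Pool.Agent.W147.PS.ff q := rfl
      rw [this]
      ring
    rw [e]
    exact h8
  refine ⟨?_, hcount⟩
  -- there is an integer point
  have h0 : (0 : Fin n → ℝ) ∈ K := by
    have h1 := hv ⟨0, hn⟩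
    have h3 := hK h1 (hs _ h1) (show (0 : ℝ) ≤ 1 / 2 by norm_num)
      (show (0 : ℝ) ≤ 1 / 2 by norm_num) (by norm_num)
    rwa [smul_neg, add_neg_cancel] at h3
  have hlamX : (q : ℝ) ^ (-δ) * (q : ℝ) ^ δ = 1 := by
    rw [← Real.rpow_add hX0]
    simp
  obtain ⟨u, hu⟩ := Pool.Agent.U642.CB.round hK h0 v ((q : ℝ) ^ (-δ)) (by positivity) (by
    intro i
    have h1 := Set.smul_mem_smul_set (a := (q : ℝ) ^ (-δ)) (hv i)
    rwa [smul_smul, hlamX, one_smul] at h1) hli c 1 le_rfl
  rw [Nat.cast_one, one_smul, one_mul] at hu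
  have hmem : u ∈ S 1 := by
    rw [hS 1 zero_le_one (by norm_num)]
    have h6 := Pool.Agent.U642.CB.neg_mem' hs hu
    rw [neg_sub] at h6
    rw [Real.rpow_zero] at h4
    exact Pool.Agent.U642.CB.mono_smul hK h0 (by positivity) h4 h6
  by_contra hempty
  rw [Set.not_nonempty_iff_eq_empty] at hempty
  rw [hempty, Set.ncard_empty, hset, Set.ncard_coe_finset] at hcount
  have h6 : (1 : ℝ) ≤ (S 1).card := by
    exact_mod_cast Finset.card_pos.2 ⟨u, hmem⟩
  have h7 : 0 < (q : ℝ) ^ (-δ) := Real.rpow_pos_of_pos hX0 _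
  push_cast at hcount
  nlinarith

end Pool.Agent.Results.MP_e1dc24_nt.ConvexBodiesOfClasses
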