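import Pool.Agent.U485.LP.C

/-!
# Least primes of the true order of magnitude in the lifts of prescribed residue classes

Prescribe a residue class `c(q)` modulo every `q ≤ √X / (log X) ^ B`, for instance the worst one for our purpose. For
almost all the multiples `n ≤ X` of `q` and almost all the lifts `a` modulo `n` of this class one has
`p(a, n) ≤ K n log n`: the proportion of the exceptions is `O(1 / K)`, uniformly for `1 ≤ K ≤ (log X) ^ A`.

Proof. The mean square of `π(N; n, a) - π(N) / φ(n)` over the lifts `a` of the prescribed classes (the theorem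
`MP_a78e8f_nt.LiftsMeanSquare`: additive frequencies over the lifts, the large sieve, the theorem of Bombieri and
Vinogradov) is bounded by a constant times the number of the primes, without loss of a logarithm, up to moduli `n` as
large as `N`. This is used for `N = K Y log Y` and the moduli `n` in `(Y, 3 Y]`.
-/

set_option autoImplicit false

namespace Pool.Agent.Results.MP_e1dc24_nt.LiftsOfPrescribedClasses

open Finset

/-- `p(a, n)`: the least prime `p ≡ a (mod n)` -/
noncomputable def leastPrime (a n : ℕ) : ℕ := sInf {p : ℕ | p.Prime ∧ p ≡ a [MOD n]}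

/-- The invertible residue classes `a` modulo `n` which lie over the class `c` modulo the divisor `q` of `n`. (Their
number is `φ(n) / φ(q)`, if `c` is prime to `q`.) -/
def lifts (n q c : ℕ) : Finset ℕ := (range n).filter (fun a => a.Coprime n ∧ a ≡ c [MOD q])

/-- The proportion of the lifts `a` modulo `n` of the class `c` modulo `q` with `p(a, n) > K n log n`. -/
noncomputable def badShare (K : ℝ) (n q c : ℕ) : ℝ :=
  (((lifts n q c).filter (fun a => K * n * Real.log n < leastPrime a n)).card : ℝ) / ((lifts n q c).card : ℝ)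

/-- For every `A` there are `B`, `C` such that for all large `X`, every set `S` of positive integers
`q ≤ √X / (log X) ^ B`, every choice of classes `c(q)` prime to `q` and all real `1 ≤ K ≤ (log X) ^ A` the sum of
`badShare K n q (c q)` over the pairs of a `q` in `S` and a multiple `n ≤ X` of `q` is at most
`C (X / K) ∑_{q ∈ S} 1 / q + C X / (log X) ^ A`. (The number of these pairs is about `X ∑_{q ∈ S} 1 / q`, so the mean
value of the proportion is `O(1 / K)` if `∑_{q ∈ S} 1 / q ≥ K (log X) ^ (-A)`.) -/
theorem result (A : ℕ) : ∃ (B : ℕ) (C : ℝ) (X₀ : ℕ), ∀ X : ℕ, X₀ ≤ X → ∀ S : Finset ℕ,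
    (∀ q ∈ S, 1 ≤ q ∧ (q : ℝ) * Real.log X ^ B ≤ Real.sqrt X) →
    ∀ c : ℕ → ℕ, (∀ q ∈ S, (c q).Coprime q) → ∀ K : ℝ, 1 ≤ K → K ≤ Real.log X ^ A →
    ∑ q ∈ S, ∑ n ∈ (Icc 1 X).filter (fun n => q ∣ n), badShare K n q (c q) ≤
      C * (X / K * ∑ q ∈ S, 1 / (q : ℝ) + X / Real.log X ^ A) := by
  obtain ⟨B, C, _, X0, _, h⟩ := Pool.Agent.U485.LP.final A
  exact ⟨B, C, X0, fun X hX S hS c hc K hK1 hK => h X hX S hS c hc K hK1 hK⟩

end Pool.Agent.Results.MP_e1dc24_nt.LiftsOfPrescribedClasses
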