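import Pool.Agent.U365.MOD.L

/-!
# Polylogarithmic bounds for the least primes in almost all classes, for almost all moduli in the classes of EVERY modulus
`q ≤ X ^ (2 / 3 - ρ)`, and for all the multiples of these moduli

Let `p(c, Q)` be the least prime `p ≡ c (mod Q)`. For EVERY `q ≤ X ^ (2 / 3 - ρ)`, without any exceptional `q`, and every
residue class `a` modulo `q` with `gcd(a, q) ≤ (log X)^T`, all but at most `X / (q (log X)^A)` of the moduli `m ≡ a (mod q)`,
`3 ≤ m ≤ X`, are such that ALL their multiples `Q = t m`, `t ≤ (log m)^K`, satisfy, for ALL real `lam ≥ 0` with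
`Q ≤ lam φ(Q) log Q ≤ Q (log Q)^K`,

  `p(c, Q) ≤ lam φ(Q) log Q` for all reduced classes `c` modulo `Q`, with at most `(1 + ε) φ(Q) / (1 + lam)` exceptions.

In particular `p(c, Q) ≤ Q (log Q)^(B + 1)` for all but at most `2 φ(Q) / (log Q)^B` of the reduced classes, for all real `B`
with `0 ≤ B ≤ K - 1`. So thin sets of moduli (about `X^(1/3 + ρ)` numbers up to `X`) contain almost only such moduli.

Proof. The theorem of the starting files on Hooley's asymptotic formula for the variance for almost all moduli in the residue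
classes of every modulus (`MP_5d318d_nt.ModuliInClasses`), applied to `t m` in the class of `t a` modulo `t q`, for all `t` at
the same time, and the passage from the variance to the least primes of the starting files (`TH894/PV`, `R501/LP`).
-/

set_option autoImplicit false

namespace Pool.Agent.Results.MP_e1dc24_nt.ModuliInEveryClass

open Finset Filter Topology

/-- `p(c, Q)` for `0 ≤ c < Q`: the least prime `p` with `p ≡ c (mod Q)` (for a reduced class there is such a prime) -/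
noncomputable def leastPrime (c Q : ℕ) : ℕ := sInf {p : ℕ | p.Prime ∧ p % Q = c}

open Classical in
/-- the number of the reduced classes `c` modulo `Q` with `p(c, Q) > x` -/
noncomputable def late (x : ℝ) (Q : ℕ) : ℕ :=
  ((range Q).filter (fun c => Nat.Coprime c Q ∧ x < leastPrime c Q)).card

/-- For ALL real `lam ≥ 0` with `Q ≤ lam φ(Q) log Q ≤ Q (log Q)^K` the number of the reduced classes `c` modulo `Q` with
`p(c, Q) > lam φ(Q) log Q` is at most `(1 + ε) φ(Q) / (1 + lam)`, and for ALL real `B` with `0 ≤ B ≤ K - 1` the number of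
the reduced classes `c` modulo `Q` with `p(c, Q) > Q (log Q)^(B + 1)` is at most `2 φ(Q) / (log Q)^B`. -/
def Good (ε : ℝ) (K Q : ℕ) : Prop :=
  (∀ lam : ℝ, 0 ≤ lam → (Q : ℝ) ≤ lam * (Nat.totient Q * Real.log Q) →
    lam * (Nat.totient Q * Real.log Q) ≤ Q * Real.log Q ^ K →
      (late (lam * (Nat.totient Q * Real.log Q)) Q : ℝ) ≤ (1 + ε) * Nat.totient Q / (1 + lam)) ∧
  ∀ B : ℝ, 0 ≤ B → B ≤ K - 1 →
    (late (Q * Real.log Q ^ (B + 1)) Q : ℝ) ≤ 2 * Nat.totient Q / Real.log Q ^ B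

open Pool.Agent.R501.LP (LpG)

theorem late_of {ε x : ℝ} {κ Q : ℕ} (h : LpG ε κ Q) (hx1 : (Q : ℝ) ≤ x) (hx2 : x ≤ Q * Real.log Q ^ κ) :
    (late x Q : ℝ) * (1 + x / (Nat.totient Q * Real.log Q)) ≤ (1 + ε) * Nat.totient Q := by
  classical
  refine le_trans (mul_le_mul_of_nonneg_right ?_ ?_) (h x hx1 hx2).1
  · unfold late
    rw [Nat.cast_le]
    apply card_le_card
    intro c hc
    rw [mem_filter] at hc ⊢
    refine ⟨hc.1, hc.2.1, fun p hp hpx hpc => ?_⟩
    have h1 : leastPrime c Q ≤ p := Nat.sInf_le ⟨hp, hpc⟩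
    have h2 : (leastPrime c Q : ℝ) ≤ p := by exact_mod_cast h1
    linarith [hc.2.2]
  · have h0 : 0 ≤ x := le_trans (Nat.cast_nonneg _) hx1
    have h1 : 0 ≤ Real.log Q := Real.log_natCast_nonneg _
    positivity

theorem good_of {ε : ℝ} {K Q : ℕ} (hε1 : ε ≤ 1) (hQ3 : 3 ≤ Q) (h3 : LpG ε K Q) : Good ε K Q := by
  have hQ3' : (3 : ℝ) ≤ Q := by exact_mod_cast hQ3
  have hQ0 : (0 : ℝ) < Q := by linarith
  have hl1 : 1 < Real.log Q := by
    rw [Real.lt_log_iff_exp_lt hQ0]
    have := Real.exp_one_lt_d9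
    linarith
  have hl0 : 0 < Real.log Q := by linarith
  have hφ : (0 : ℝ) < Nat.totient Q := by exact_mod_cast Nat.totient_pos.2 (by omega)
  have hφQ : (Nat.totient Q : ℝ) ≤ Q := by exact_mod_cast Nat.totient_le Q
  refine ⟨fun lam hlam e1 e2 => ?_, fun A hA0 hA => ?_⟩
  · have h4 := late_of h3 e1 e2
    have e3 : lam * ((Nat.totient Q : ℝ) * Real.log Q) / (Nat.totient Q * Real.log Q) = lam := by
      field_simp
    rw [e3] at h4
    rw [le_div_iff₀ (by linarith)]
    exact h4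
  · have e1 : (Q : ℝ) ≤ Q * Real.log Q ^ (A + 1) :=
      le_mul_of_one_le_right hQ0.le (Real.one_le_rpow hl1.le (by linarith))
    have e2 : (Q : ℝ) * Real.log Q ^ (A + 1) ≤ Q * Real.log Q ^ K := by
      apply mul_le_mul_of_nonneg_left _ hQ0.le
      rw [← Real.rpow_natCast]
      exact Real.rpow_le_rpow_of_exponent_le hl1.le (by linarith)
    have h4 := late_of h3 e1 e2
    have hLA : 0 < Real.log Q ^ A := Real.rpow_pos_of_pos hl0 A
    have e3 : Real.log Q ^ A ≤ 1 + Q * Real.log Q ^ (A + 1) / (Nat.totient Q * Real.log Q) := by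
      rw [Real.rpow_add_one hl0.ne']
      have : (Q : ℝ) * (Real.log Q ^ A * Real.log Q) / (Nat.totient Q * Real.log Q) = Real.log Q ^ A * (Q / Nat.totient Q) := by
        field_simp
      rw [this]
      have h5 : 1 ≤ (Q : ℝ) / Nat.totient Q := by
        rw [one_le_div hφ]
        exact hφQ
      nlinarith
    rw [le_div_iff₀ hLA]
    have h5 : (0 : ℝ) ≤ late (Q * Real.log Q ^ (A + 1)) Q := Nat.cast_nonneg _
    calc (late (Q * Real.log Q ^ (A + 1)) Q : ℝ) * Real.log Q ^ A ≤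
        late (Q * Real.log Q ^ (A + 1)) Q * (1 + Q * Real.log Q ^ (A + 1) / (Nat.totient Q * Real.log Q)) :=
          mul_le_mul_of_nonneg_left e3 h5
      _ ≤ (1 + ε) * Nat.totient Q := h4
      _ ≤ 2 * Nat.totient Q := mul_le_mul_of_nonneg_right (by linarith) hφ.le

open Classical in
/-- **Polylogarithmic bounds for the least primes in almost all classes, for moduli in the classes of every modulus.** Let
`0 < ε ≤ 1`, `ρ > 0` and let `A`, `K`, `T` be natural numbers. For large `X`, for EVERY `1 ≤ q ≤ X ^ (2 / 3 - ρ)` and every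
`a` with `gcd(a, q) ≤ (log X) ^ T`, all but at most `X / (q (log X) ^ A)` of the moduli `m ≡ a (mod q)`, `3 ≤ m ≤ X`, have the
property: ALL the multiples `Q = t m` with `1 ≤ t ≤ (log m) ^ K` satisfy `Good ε K Q`. -/
theorem result (ε : ℝ) (hε : 0 < ε) (hε1 : ε ≤ 1) (ρ : ℝ) (hρ : 0 < ρ) (A K T : ℕ) :
    ∃ X₀ : ℝ, ∀ X : ℝ, X₀ ≤ X → ∀ q : ℕ, 1 ≤ q → (q : ℝ) ≤ X ^ (2 / 3 - ρ) → ∀ a : ℤ,
      (Int.gcd a q : ℝ) ≤ Real.log X ^ T →
        (((Icc 3 ⌊X⌋₊).filter (fun m : ℕ => (m : ℤ) ≡ a [ZMOD q] ∧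
          ¬ ∀ t : ℕ, 1 ≤ t → (t : ℝ) ≤ Real.log m ^ K → Good ε K (t * m))).card : ℝ) ≤ X / (q * Real.log X ^ A) := by
  obtain ⟨X₀, h⟩ := Pool.Agent.U365.MOD.ebt_LP ε hε hε1 K ρ hρ A T
  refine ⟨max X₀ 1, fun X hX q hq hqX a ha => ?_⟩
  have hX0 : X₀ ≤ X := (le_max_left _ _).trans hX
  have hX1 : 1 ≤ X := (le_max_right _ _).trans hX
  have hq0 : (0 : ℤ) < q := by exact_mod_cast hq
  obtain ⟨S, hS⟩ : ∃ S, S = (Icc 3 ⌊X⌋₊).filter (fun m : ℕ => (m : ℤ) ≡ a [ZMOD q] ∧
          ¬ ∀ t : ℕ, 1 ≤ t → (t : ℝ) ≤ Real.log m ^ K → Good ε K (t * m)) := ⟨_, rfl⟩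
  rw [← hS]
  have hval : ∀ m ∈ S, (q : ℤ) * ((m / q : ℕ) : ℤ) + a % q = m := by
    intro m hm
    rw [hS, mem_filter] at hm
    have h1 : a % q = (m : ℤ) % q := hm.2.1.symm
    rw [h1]
    push_cast
    exact Int.mul_ediv_add_emod m q
  have hinj : Set.InjOn (fun m : ℕ => m / q) (S : Set ℕ) := by
    intro m hm n hn hmn
    simp only at hmn
    have h1 := hval m hm
    have h2 := hval n hn
    rw [hmn, h2] at h1
    exact_mod_cast h1.symm
  rw [← card_image_of_injOn hinj]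
  refine h X hX0 q hq hqX (a % q) ?_ _ ?_
  · rw [Int.gcd_emod]
    exact ha
  · intro v hv
    rw [mem_image] at hv
    obtain ⟨m, hm, rfl⟩ := hv
    have h1 := hval m hm
    rw [hS, mem_filter, mem_Icc] at hm
    obtain ⟨⟨hm3, hmX⟩, -, hbad⟩ := hm
    have hmX' : (m : ℝ) ≤ X := (Nat.le_floor_iff (by linarith)).1 hmX
    have h2 : (((q : ℤ) * ((m / q : ℕ) : ℤ) + a % q : ℤ) : ℝ) = m := by rw [h1]; simp
    refine ⟨by omega, ?_, ?_⟩
    · rw [h2]
      exact hmX'
    · rw [h1, Int.toNat_natCast]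
      intro hg
      apply hbad
      intro t ht1 ht2
      refine good_of hε1 ?_ (hg t ht1 ht2)
      exact hm3.trans (Nat.le_mul_of_pos_left m ht1)

end Pool.Agent.Results.MP_e1dc24_nt.ModuliInEveryClass
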